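import Pool.Agent.Helper78.LK.Goals

/-!
# Packet FAR of project LK: distances of the passes of the crossings
-/

set_option autoImplicit false

namespace Pool.Agent.Helper67.LK

open Pool.Agent.Helper50.KP Pool.Agent.Helper78.LK

theorem tm_true (k x : ℕ) :
    tm k x true = if (x % 2 = 1 ↔ x ≤ 6 * k) then tX k x else tY k x := by
  unfold tm
  by_cases h1 : x % 2 = 1 <;> by_cases h2 : x ≤ 6 * k <;> simp [h1, h2]

theorem tm_false (k x : ℕ) :
    tm k x false = if (x % 2 = 1 ↔ x ≤ 6 * k) then tY k x else tX k x := by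
  unfold tm
  by_cases h1 : x % 2 = 1 <;> by_cases h2 : x ≤ 6 * k <;> simp [h1, h2]

theorem gFAR : FAR := by
  intro k x y hx1 hx2 hy1 hy2
  refine ⟨?_, ?_, ?_⟩
  · rintro (_ | _)
    · rw [tm_false]
      unfold tX tY
      split_ifs <;> omega
    · rw [tm_true]
      unfold tX tY
      split_ifs <;> omega
  · rw [tm_false, tm_true]
    unfold tX tY Far
    split_ifs <;> omega
  · rw [tm_false, tm_true, tm_false, tm_true]
    unfold tX tY Far sn
    split_ifs <;> omega

end Pool.Agent.Helper67.LK
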